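import Mathlib
import Pool.Agent.MP_ab4491_co.Final

set_option autoImplicit false

namespace Pool.Agent.Results.MP_ab4491_co.StrongSync

open Pool.Agent.SynDes

/-- For every positive integer `n`, the sequences counting even and odd permutations of `n`
letters with `k` descents, `0 ≤ k ≤ n - 1`, are strongly synchronised. -/
theorem result : ∀ n : ℕ, 1 ≤ n → StronglySynchronised (n - 1) (evenDes n) (oddDes n) :=
  fun n hn => strongSync n hn

end Pool.Agent.Results.MP_ab4491_co.StrongSync
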